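import Pool.Agent.Y95.MT.Gal
import Pool.Agent.Y95.ZG.Gou

/-!
# The identity component of the Zariski closure is irreducible
-/

set_option autoImplicit false
set_option linter.unusedSectionVars false

namespace Pool.Agent.Y95.ZI

open MvPolynomial Matrix Pool.Agent.W528.ZC Pool.Agent.Y95.MT Pool.Agent.Y95.ZG

noncomputable section

variable {K : Type} [Field K] {ι : Type} [Fintype ι] [DecidableEq ι] {Γ : Type} [Group Γ]

/-- the ideal of the closure of the image of a subgroup -/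
def V0 (g : Γ →* Matrix ι ι K) (Δ : Subgroup Γ) : Ideal (MvPolynomial (ι × ι) K) where
  carrier := {f | ∀ s ∈ Δ, ev (g s) f = 0}
  zero_mem' := fun s _ => map_zero _
  add_mem' := by
    intro f f' h h' s hs
    rw [map_add, h s hs, h' s hs, add_zero]
  smul_mem' := by
    intro c f h s hs
    rw [smul_eq_mul, map_mul, h s hs, mul_zero]

theorem mem_V0 {g : Γ →* Matrix ι ι K} {Δ : Subgroup Γ} {f : MvPolynomial (ι × ι) K} :
    f ∈ V0 g Δ ↔ ∀ s ∈ Δ, ev (g s) f = 0 := Iff.rfl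

theorem V0_anti {g : Γ →* Matrix ι ι K} {Δ Δ' : Subgroup Γ} (h : Δ ≤ Δ') : V0 g Δ' ≤ V0 g Δ :=
  fun _ hf s hs => hf s (h hs)

theorem V0_left {g : Γ →* Matrix ι ι K} {Δ : Subgroup Γ} {γ : Γ} (hγ : γ ∈ Δ)
    {f : MvPolynomial (ι × ι) K} (hf : f ∈ V0 g Δ) : sub (g γ) 1 f ∈ V0 g Δ := by
  intro s hs
  rw [ev_sub, mul_one, ← map_mul]
  exact hf _ (Δ.mul_mem hγ hs)

theorem V0_right {g : Γ →* Matrix ι ι K} {Δ : Subgroup Γ} {γ : Γ} (hγ : γ ∈ Δ)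
    {f : MvPolynomial (ι × ι) K} (hf : f ∈ V0 g Δ) : sub 1 (g γ) f ∈ V0 g Δ := by
  intro s hs
  rw [ev_sub, one_mul, ← map_mul]
  exact hf _ (Δ.mul_mem hs hγ)

variable [Infinite K]

theorem left_left (g : Γ →* Matrix ι ι K) (γ δ : Γ) (f : MvPolynomial (ι × ι) K) :
    sub (g γ) 1 (sub (g δ) 1 f) = sub (g (δ * γ)) 1 f := by
  rw [Pool.Agent.W528.ZC.sub_sub, mul_one, map_mul]

theorem left_inv' (g : Γ →* Matrix ι ι K) (γ : Γ) (f : MvPolynomial (ι × ι) K) :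
    sub (g γ) 1 (sub (g γ⁻¹) 1 f) = f := by
  rw [left_left, inv_mul_cancel, map_one, sub_one]

theorem right_inv' (g : Γ →* Matrix ι ι K) (γ : Γ) (f : MvPolynomial (ι × ι) K) :
    sub 1 (g γ⁻¹) (sub 1 (g γ) f) = f := by
  rw [Pool.Agent.W528.ZC.sub_sub, mul_one, ← map_mul, inv_mul_cancel, map_one, sub_one]

/-- the translate of an ideal -/
def tl (g : Γ →* Matrix ι ι K) (γ : Γ) (Q : Ideal (MvPolynomial (ι × ι) K)) :
    Ideal (MvPolynomial (ι × ι) K) := Q.comap (sub (g γ) 1)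

theorem mem_tl {g : Γ →* Matrix ι ι K} {γ : Γ} {Q : Ideal (MvPolynomial (ι × ι) K)}
    {f : MvPolynomial (ι × ι) K} : f ∈ tl g γ Q ↔ sub (g γ) 1 f ∈ Q := Iff.rfl

theorem tl_tl (g : Γ →* Matrix ι ι K) (γ δ : Γ) (Q : Ideal (MvPolynomial (ι × ι) K)) :
    tl g γ (tl g δ Q) = tl g (γ * δ) Q := by
  ext f
  rw [mem_tl, mem_tl, mem_tl, left_left]

theorem tl_one (g : Γ →* Matrix ι ι K) (Q : Ideal (MvPolynomial (ι × ι) K)) :
    tl g 1 Q = Q := by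
  ext f
  rw [mem_tl, map_one, sub_one]

theorem tl_mono {g : Γ →* Matrix ι ι K} {γ : Γ} {Q Q' : Ideal (MvPolynomial (ι × ι) K)}
    (h : Q ≤ Q') : tl g γ Q ≤ tl g γ Q' := fun _ hf => h hf

theorem tl_min {g : Γ →* Matrix ι ι K} {Q : Ideal (MvPolynomial (ι × ι) K)}
    (hQ : Q ∈ (V0 g ⊤).minimalPrimes) (γ : Γ) : tl g γ Q ∈ (V0 g ⊤).minimalPrimes := by
  have hJ : ∀ δ : Γ, V0 g ⊤ ≤ tl g δ (V0 g ⊤) := fun δ f hf => V0_left (Subgroup.mem_top δ) hf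
  obtain ⟨⟨hQp, hQJ⟩, hmin⟩ := hQ
  refine ⟨⟨Ideal.IsPrime.comap _, (hJ γ).trans (tl_mono hQJ)⟩, ?_⟩
  rintro Q' ⟨hQ'p, hQ'J⟩ hle
  have h1 : tl g γ⁻¹ Q' ≤ Q := by
    have h2 := tl_mono (g := g) (γ := γ⁻¹) hle
    rwa [tl_tl, inv_mul_cancel, tl_one] at h2
  have h2 := hmin (y := tl g γ⁻¹ Q') ⟨Ideal.IsPrime.comap _, (hJ γ⁻¹).trans (tl_mono hQ'J)⟩ h1
  have h3 := tl_mono (g := g) (γ := γ) h2
  rwa [tl_tl, mul_inv_cancel, tl_one] at h3

/-- the connected case -/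
theorem prime_conn {g : Γ →* Matrix ι ι K}
    (hconn : ∀ Δ : Subgroup Γ, Δ.FiniteIndex → V0 g Δ ≤ V0 g ⊤) : (V0 g ⊤).IsPrime := by
  classical
  have hne : V0 g ⊤ ≠ ⊤ := by
    intro h
    have h1 : (1 : MvPolynomial (ι × ι) K) ∈ V0 g ⊤ := by rw [h]; trivial
    have h2 := h1 1 (Subgroup.mem_top _)
    rw [map_one] at h2
    exact one_ne_zero h2
  have hrad : (V0 g ⊤).radical = V0 g ⊤ := by
    refine le_antisymm ?_ Ideal.le_radical
    rintro f ⟨n, hn⟩ s hs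
    have h1 := hn s hs
    rw [map_pow] at h1
    exact eq_zero_of_pow_eq_zero h1
  have hfin : (V0 g ⊤).minimalPrimes.Finite := Ideal.finite_minimalPrimes_of_isNoetherianRing _ _
  obtain ⟨Q, hQ⟩ : (V0 g ⊤).minimalPrimes.Nonempty :=
    (Set.nonempty_coe_sort).1 (Ideal.nonempty_minimalPrimes hne)
  have hQp : Q.IsPrime := hQ.1.1
  -- a function which vanishes on the other components
  obtain ⟨e, he, heQ⟩ : ∃ e, (∀ Q' ∈ (V0 g ⊤).minimalPrimes, Q' ≠ Q → e ∈ Q') ∧ e ∉ Q := by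
    by_contra hcon
    push Not at hcon
    have h1 : (hfin.toFinset.erase Q).inf id ≤ Q := by
      intro e he
      refine hcon e fun Q' hQ' hne => ?_
      have h2 := (Finset.inf_le (f := id) (Finset.mem_erase.2 ⟨hne, hfin.mem_toFinset.2 hQ'⟩) :
        (hfin.toFinset.erase Q).inf id ≤ id Q')
      exact h2 he
    obtain ⟨Q', hQ', hle⟩ := (Ideal.IsPrime.inf_le' hQp).1 h1
    rw [Finset.mem_erase, hfin.mem_toFinset] at hQ'
    exact hQ'.1 (le_antisymm hle (hQ.2 hQ'.2.1 hle))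
  obtain ⟨γ₀, hγ₀⟩ : ∃ γ₀, ev (g γ₀) e ≠ 0 := by
    by_contra hcon
    push Not at hcon
    exact heQ (hQ.1.2 fun s _ => hcon s)
  -- the functions of `Q` vanish at that point
  have h1 : ∀ f ∈ Q, ev (g γ₀) f = 0 := by
    intro f hf
    have h2 : f * e ∈ V0 g ⊤ := by
      rw [← hrad, ← Ideal.sInf_minimalPrimes, Ideal.mem_sInf]
      intro Q' hQ'
      by_cases h : Q' = Q
      · rw [h]
        exact Q.mul_mem_right _ hf
      · exact Q'.mul_mem_left _ (he Q' hQ' h)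
    have h3 := h2 γ₀ (Subgroup.mem_top _)
    rw [map_mul] at h3
    exact (mul_eq_zero.1 h3).resolve_right hγ₀
  -- the stabilizer of `Q`
  let Δ : Subgroup Γ :=
    { carrier := {γ | tl g γ Q = Q}
      one_mem' := tl_one g Q
      mul_mem' := by
        intro a b ha hb
        change tl g (a * b) Q = Q
        rw [← tl_tl, hb, ha]
      inv_mem' := by
        intro a ha
        change tl g a⁻¹ Q = Q
        replace ha : tl g a Q = Q := ha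
        conv_lhs => rw [← ha]
        rw [tl_tl, inv_mul_cancel, tl_one] }
  have hΔ : Δ.FiniteIndex := by
    refine fin_stab (fun γ => tl g γ Q) Δ (hfin.subset ?_) ?_
    · rintro _ ⟨γ, rfl⟩
      exact tl_min hQ γ
    · intro a b hab
      change tl g (a⁻¹ * b) Q = Q
      replace hab : tl g a Q = tl g b Q := hab
      rw [← tl_tl, ← hab, tl_tl, inv_mul_cancel, tl_one]
  have h2 : Q ≤ V0 g ⊤ := by
    intro f hf
    have h3 : sub 1 (g γ₀) f ∈ V0 g Δ := by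
      intro γ hγ
      have h4 : sub (g γ) 1 f ∈ Q := by
        have h5 : tl g γ Q = Q := hγ
        rw [← mem_tl, h5]
        exact hf
      have h5 := h1 _ h4
      rw [ev_sub, mul_one] at h5
      rw [ev_sub, one_mul]
      exact h5
    have h4 := V0_right (Subgroup.mem_top γ₀⁻¹) (hconn Δ hΔ h3)
    rwa [right_inv'] at h4
  rw [← le_antisymm h2 hQ.1.2]
  exact hQp

/-- the ideal of the identity component -/
def Jg (g : Γ →* Matrix ι ι K) : Ideal (MvPolynomial (ι × ι) K) where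
  carrier := {f | ∃ Δ : Subgroup Γ, Δ.FiniteIndex ∧ f ∈ V0 g Δ}
  zero_mem' := ⟨⊤, inferInstance, (V0 g ⊤).zero_mem⟩
  add_mem' := by
    rintro f f' ⟨Δ, hΔ, h⟩ ⟨Δ', hΔ', h'⟩
    exact ⟨Δ ⊓ Δ', inferInstance, (V0 g _).add_mem (V0_anti inf_le_left h)
      (V0_anti inf_le_right h')⟩
  smul_mem' := by
    rintro c f ⟨Δ, hΔ, h⟩
    exact ⟨Δ, hΔ, (V0 g _).smul_mem c h⟩

theorem mem_Jg {g : Γ →* Matrix ι ι K} {f : MvPolynomial (ι × ι) K} : f ∈ Jg g ↔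
    ∃ Δ : Subgroup Γ, Δ.FiniteIndex ∧ f ∈ V0 g Δ := Iff.rfl

theorem exists_conn (g : Γ →* Matrix ι ι K) : ∃ Δ₀ : Subgroup Γ, Δ₀.FiniteIndex ∧
    Jg g = V0 g Δ₀ := by
  obtain ⟨J, ⟨Δ₀, hΔ₀, rfl⟩, hmax⟩ := set_has_maximal_iff_noetherian.2
    (inferInstance : IsNoetherian (MvPolynomial (ι × ι) K) (MvPolynomial (ι × ι) K))
    {J | ∃ Δ : Subgroup Γ, Δ.FiniteIndex ∧ J = V0 g Δ} ⟨_, ⊤, inferInstance, rfl⟩
  refine ⟨Δ₀, hΔ₀, le_antisymm ?_ fun f hf => ⟨Δ₀, hΔ₀, hf⟩⟩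
  rintro f ⟨Δ, hΔ, hf⟩
  have h1 : V0 g Δ₀ ≤ V0 g (Δ₀ ⊓ Δ) := V0_anti inf_le_left
  have h2 : V0 g (Δ₀ ⊓ Δ) = V0 g Δ₀ := by
    by_contra hne
    exact hmax _ ⟨Δ₀ ⊓ Δ, inferInstance, rfl⟩ (lt_of_le_of_ne h1 (Ne.symm hne))
  rw [← h2]
  exact V0_anti inf_le_right hf

/-- **The ideal of the identity component is prime.** -/
theorem Jg_prime (g : Γ →* Matrix ι ι K) : (Jg g).IsPrime := by
  obtain ⟨Δ₀, hΔ₀, h0⟩ := exists_conn g
  have h1 : V0 (g.comp Δ₀.subtype) ⊤ = V0 g Δ₀ := by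
    ext f
    constructor
    · intro h s hs
      exact h ⟨s, hs⟩ (Subgroup.mem_top _)
    · rintro h ⟨s, hs⟩ _
      exact h s hs
  have h2 := prime_conn (g := g.comp Δ₀.subtype) fun Δ hΔ f hf => by
    rw [h1, ← h0]
    refine ⟨Δ.map Δ₀.subtype, ?_, ?_⟩
    · refine ⟨?_⟩
      rw [Subgroup.index_map_subtype]
      exact mul_ne_zero hΔ.index_ne_zero hΔ₀.index_ne_zero
    · rintro s ⟨⟨s', hs'⟩, hs, rfl⟩
      exact hf ⟨s', hs'⟩ hs
  rw [h0, ← h1]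
  exact h2

end

end Pool.Agent.Y95.ZI
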